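import Mathlib

/-!
# Andrews–Curtis moves on pairs of relators

`Move` is one elementary Andrews–Curtis move on an ordered pair of elements of a group, `AC` the
equivalence relation generated by the moves.
-/

namespace Pool.Agent.ACFam

variable {G H : Type*} [Group G] [Group H]

/-- One elementary Andrews–Curtis move on an ordered pair `(r, s)` of relators: exchange the two
relators, invert the first one, multiply the first one by the second one on the right, or
conjugate the first one. -/
inductive Move {G : Type*} [Group G] : G × G → G × G → Prop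
  | swap (r s : G) : Move (r, s) (s, r)
  | inv (r s : G) : Move (r, s) (r⁻¹, s)
  | mul (r s : G) : Move (r, s) (r * s, s)
  | conj (g r s : G) : Move (r, s) (g * r * g⁻¹, s)

/-- Andrews–Curtis equivalence of pairs of relators: the equivalence relation generated by the
elementary moves. -/
def AC {G : Type*} [Group G] (p q : G × G) : Prop := Relation.EqvGen Move p q

theorem AC.refl (p : G × G) : AC p p := Relation.EqvGen.refl _

theorem AC.symm {p q : G × G} (h : AC p q) : AC q p := Relation.EqvGen.symm _ _ h

theorem AC.trans {p q r : G × G} (h : AC p q) (h' : AC q r) : AC p r :=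
  Relation.EqvGen.trans _ _ _ h h'

theorem AC.swap (r s : G) : AC (r, s) (s, r) := Relation.EqvGen.rel _ _ (Move.swap r s)

theorem AC.inv (r s : G) : AC (r, s) (r⁻¹, s) := Relation.EqvGen.rel _ _ (Move.inv r s)

theorem AC.mul (r s : G) : AC (r, s) (r * s, s) := Relation.EqvGen.rel _ _ (Move.mul r s)

theorem AC.conj (g r s : G) : AC (r, s) (g * r * g⁻¹, s) :=
  Relation.EqvGen.rel _ _ (Move.conj g r s)

theorem AC.map (φ : G →* H) {p q : G × G} (h : AC p q) :
    AC (φ p.1, φ p.2) (φ q.1, φ q.2) := by
  induction h with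
  | rel a b hab =>
    cases hab with
    | swap r s => exact AC.swap _ _
    | inv r s => simpa using AC.inv (φ r) (φ s)
    | mul r s => simpa using AC.mul (φ r) (φ s)
    | conj g r s => simpa using AC.conj (φ g) (φ r) (φ s)
  | refl a => exact AC.refl _
  | symm a b _ ih => exact ih.symm
  | trans a b c _ _ ih1 ih2 => exact ih1.trans ih2

theorem AC.mul_conj (g r s : G) : AC (r, s) (r * (g * s * g⁻¹), s) := by
  have h1 := AC.conj g⁻¹ r s
  have h2 := AC.mul (g⁻¹ * r * g⁻¹⁻¹) s
  have h3 := AC.conj g (g⁻¹ * r * g⁻¹⁻¹ * s) s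
  have h := (h1.trans h2).trans h3
  have e : g * (g⁻¹ * r * g⁻¹⁻¹ * s) * g⁻¹ = r * (g * s * g⁻¹) := by group
  rwa [e] at h

/-- The first relator may be changed inside the normal closure of the second one. -/
theorem AC.of_mem {n s : G} (hn : n ∈ Subgroup.normalClosure ({s} : Set G)) (r : G) :
    AC (r, s) (r * n, s) := by
  induction hn using Subgroup.closure_induction generalizing r with
  | mem x hx =>
    obtain ⟨y, hy, hc⟩ := Group.mem_conjugatesOfSet_iff.1 hx
    rw [Set.mem_singleton_iff] at hy
    subst hy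
    obtain ⟨g, rfl⟩ := isConj_iff.1 hc
    exact AC.mul_conj g r y
  | one => simpa using AC.refl (r, s)
  | mul x y _ _ hx hy => simpa [mul_assoc] using (hx r).trans (hy (r * x))
  | inv x _ hx => simpa using (hx (r * x⁻¹)).symm

/-- The quotient by the normal closure of one element. -/
abbrev Q (s : G) : Type _ := G ⧸ Subgroup.normalClosure ({s} : Set G)

/-- The quotient map. -/
def q (s : G) : G →* Q s := QuotientGroup.mk' _

theorem q_self (s : G) : q s s = 1 :=
  (QuotientGroup.eq_one_iff s).2 (Subgroup.subset_normalClosure rfl)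

/-- Main tool: if `r` and `r'` are conjugate modulo the normal closure of `s`, then the pairs
`(r, s)` and `(r', s)` are Andrews–Curtis equivalent. -/
theorem AC.left {r r' s : G} (g : G) (h : q s r = q s g * q s r' * (q s g)⁻¹) :
    AC (r, s) (r', s) := by
  have h1 : q s (g * r' * g⁻¹) = q s r := by simp [h]
  have h2 : (g * r' * g⁻¹)⁻¹ * r ∈ Subgroup.normalClosure ({s} : Set G) :=
    QuotientGroup.eq.1 h1
  have h3 := AC.of_mem h2 (g * r' * g⁻¹)
  rw [mul_inv_cancel_left] at h3
  exact ((AC.conj g r' s).trans h3).symm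

/-- The same for the inverse of `r'`. -/
theorem AC.left_inv {r r' s : G} (g : G) (h : q s r = q s g * (q s r')⁻¹ * (q s g)⁻¹) :
    AC (r, s) (r', s) :=
  (AC.left (r' := r'⁻¹) g (by simpa using h)).trans (AC.inv r' s).symm

theorem AC.right {r r' s : G} (g : G) (h : q s r = q s g * q s r' * (q s g)⁻¹) :
    AC (s, r) (s, r') :=
  ((AC.swap s r).trans (AC.left g h)).trans (AC.swap r' s)

theorem AC.right_inv {r r' s : G} (g : G) (h : q s r = q s g * (q s r')⁻¹ * (q s g)⁻¹) :
    AC (s, r) (s, r') :=
  ((AC.swap s r).trans (AC.left_inv g h)).trans (AC.swap r' s)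

/-- The free group on two generators. -/
abbrev F2 := FreeGroup (Fin 2)

/-- The first generator. -/
def X : F2 := FreeGroup.of 0

/-- The second generator. -/
def Y : F2 := FreeGroup.of 1

/-- The endomorphism of the free group with given images of the two generators. -/
def sub (a b : F2) : F2 →* F2 := FreeGroup.lift ![a, b]

@[simp] theorem sub_X (a b : F2) : sub a b X = a := by simp [sub, X]

@[simp] theorem sub_Y (a b : F2) : sub a b Y = b := by simp [sub, Y]

/-- Triviality is preserved by the substitution `Y ↦ Y * X ^ k`. -/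
theorem AC.subY {r s : F2} (k : ℤ) (h : AC (r, s) (X, Y)) :
    AC (sub X (Y * X ^ k) r, sub X (Y * X ^ k) s) (X, Y) := by
  have h1 := AC.map (sub X (Y * X ^ k)) h
  simp only [sub_X, sub_Y] at h1
  refine h1.trans ?_
  refine AC.right 1 ?_
  have hx : q X X = 1 := q_self X
  simp [map_mul, map_zpow, hx]

/-- Triviality is preserved by the substitution `X ↦ X⁻¹, Y ↦ Y⁻¹`. -/
theorem AC.subInv {r s : F2} (h : AC (r, s) (X, Y)) :
    AC (sub X⁻¹ Y⁻¹ r, sub X⁻¹ Y⁻¹ s) (X, Y) := by
  have h1 := AC.map (sub X⁻¹ Y⁻¹) h
  simp only [sub_X, sub_Y] at h1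
  refine h1.trans ?_
  have h2 := AC.inv X⁻¹ Y⁻¹
  rw [inv_inv] at h2
  have h3 := AC.inv Y⁻¹ X
  rw [inv_inv] at h3
  exact (h2.trans (AC.swap _ _)).trans (h3.trans (AC.swap _ _))

end Pool.Agent.ACFam
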