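import Pool.Agent.Lib_helper64.AC.Main

/-!
# Elementary cases, periodicity, and the words with one block
-/

namespace Pool.Agent.ACFam

variable {G H : Type*} [Group G] [Group H]

theorem R1_key {n : ℤ} {x y : G} (h : R1 n x y = 1) : x ^ n = y * x ^ (n + 1) * y⁻¹ := by
  have : x ^ n * y * x ^ (-(n + 1)) * y⁻¹ = 1 := h
  rw [mul_inv_eq_one, zpow_neg, mul_inv_eq_iff_eq_mul] at this
  rw [← this]; group

/-- Moving `b` modulo `n` at the cost of `c`. -/
theorem shift_b (n b c k : ℤ) : AC (R1 n X Y, R2 (b + n * k) c X Y)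
    (R1 n X Y, R2 b (c + (n + 1) * k) X Y) := by
  refine AC.right 1 ?_
  have h' := q_self (R1 n X Y)
  rw [map_R1] at h'
  rw [map_R2, map_R2, R2_shift h']; simp

/-- Triviality depends on `c` only modulo `n + 1`. -/
theorem shift_c (n b c l : ℤ) (h : AC (R1 n X Y, R2 b c X Y) (X, Y)) :
    AC (R1 n X Y, R2 b (c - (n + 1) * l) X Y) (X, Y) := by
  have h1 := AC.subY2 (n * l) 0 h
  rw [map_R1, map_R2, sub_X, sub_Y] at h1
  refine AC.trans (AC.symm ?_) h1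
  have e1 : R1 n X (X ^ (n * l) * Y * X ^ (0 : ℤ)) =
      X ^ (n * l) * R1 n X Y * (X ^ (n * l))⁻¹ := by
    simp only [R1]; group
  rw [e1]
  refine ((AC.conj (X ^ (n * l)) (R1 n X Y) _).symm).trans ?_
  refine AC.right (X ^ (n * l)) ?_
  have h' := q_self (R1 n X Y)
  rw [map_R1] at h'
  rw [map_R2, map_R2]
  simp only [map_mul, map_zpow]
  set x := q (R1 n X Y) X
  set y := q (R1 n X Y) Y
  have h2 : x ^ (n * l) = y * x ^ ((n + 1) * l) * y⁻¹ := by
    rw [zpow_mul, R1_key h', conj_zpow, zpow_mul]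
  have e2 : R2 b c x (x ^ (n * l) * y * x ^ (0 : ℤ)) =
      x ^ b * x ^ (n * l) * y * x ^ c * y⁻¹ * (x ^ (n * l))⁻¹ * y⁻¹ * x ^ (-(n * l)) := by
    simp only [R2]; group
  have e3 : x ^ (n * l) * R2 b (c - (n + 1) * l) x y * (x ^ (n * l))⁻¹ =
      x ^ b * x ^ (n * l) * y * x ^ (c - (n + 1) * l) * y⁻¹ * y⁻¹ * x ^ (-(n * l)) := by
    simp only [R2]; group
  rw [e2, e3]
  have e4 : y⁻¹ * (x ^ (n * l))⁻¹ = x ^ (-((n + 1) * l)) * y⁻¹ := by
    rw [h2]; group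
  calc x ^ b * x ^ (n * l) * y * x ^ c * y⁻¹ * (x ^ (n * l))⁻¹ * y⁻¹ * x ^ (-(n * l))
      = x ^ b * x ^ (n * l) * y * x ^ c * (y⁻¹ * (x ^ (n * l))⁻¹) * y⁻¹ * x ^ (-(n * l)) := by
        group
    _ = x ^ b * x ^ (n * l) * y * x ^ c * (x ^ (-((n + 1) * l)) * y⁻¹) * y⁻¹ *
          x ^ (-(n * l)) := by rw [e4]
    _ = _ := by group

/-- Triviality depends on `b` only modulo `n` and on `c` only modulo `n + 1`. -/
theorem shift_bc {n b c b' c' : ℤ} (hb : n ∣ b - b') (hc : n + 1 ∣ c - c')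
    (h : AC (R1 n X Y, R2 b' c' X Y) (X, Y)) : AC (R1 n X Y, R2 b c X Y) (X, Y) := by
  obtain ⟨k, hk⟩ := hb
  obtain ⟨l, hl⟩ := hc
  have e : b = b' + n * k := by omega
  rw [e]
  refine (shift_b n b' c k).trans ?_
  have e2 : c + (n + 1) * k = c' - (n + 1) * (-(l + k)) := by
    have : c = c' + (n + 1) * l := by omega
    rw [this]; ring
  rw [e2]
  exact shift_c n b' c' _ h

/-- A relator which expresses `Y` through `X`, together with a relator of the first kind. -/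
theorem ac_b_zero (n c : ℤ) : AC (R1 n X Y, R2 0 c X Y) (X, Y) := by
  have a1 : AC (R1 n X Y, R2 0 c X Y) (R1 n X Y, X ^ c * Y⁻¹) := by
    refine AC.right Y ?_
    simp only [R2, map_mul, map_zpow, map_inv]; group
  have a2 : AC (R1 n X Y, X ^ c * Y⁻¹) (X, X ^ c * Y⁻¹) := by
    refine AC.left_inv 1 ?_
    have h' := q_self (X ^ c * Y⁻¹)
    rw [map_mul, map_inv, mul_inv_eq_one, map_zpow] at h'
    rw [map_R1, ← h']; simp only [R1, map_one]; group
  have a3 : AC (X, X ^ c * Y⁻¹) (X, Y) := by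
    refine AC.right_inv 1 ?_
    have h' := q_self X
    simp [h']
  exact (a1.trans a2).trans a3

theorem ac_c_zero (n b : ℤ) : AC (R1 n X Y, R2 b 0 X Y) (X, Y) := by
  have a1 : AC (R1 n X Y, R2 b 0 X Y) (R1 n X Y, X ^ b * Y⁻¹) := by
    refine AC.right 1 ?_
    simp only [R2, map_mul, map_zpow, map_inv, map_one]; group
  have a2 : AC (R1 n X Y, X ^ b * Y⁻¹) (X, X ^ b * Y⁻¹) := by
    refine AC.left_inv 1 ?_
    have h' := q_self (X ^ b * Y⁻¹)
    rw [map_mul, map_inv, mul_inv_eq_one, map_zpow] at h'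
    rw [map_R1, ← h']; simp only [R1, map_one]; group
  have a3 : AC (X, X ^ b * Y⁻¹) (X, Y) := by
    refine AC.right_inv 1 ?_
    have h' := q_self X
    simp [h']
  exact (a1.trans a2).trans a3

/-- `x * y ^ M` as a relator. -/
def V {G : Type*} [Group G] (M : ℤ) (x y : G) : G := x⁻¹ * y ^ M

theorem map_V (φ : G →* H) (M : ℤ) (x y : G) : φ (V M x y) = V M (φ x) (φ y) := by
  simp [V]

theorem ac_V (M d : ℤ) : AC (V M X Y, R2 (-d) d X Y) (X, Y) := by
  have a1 : AC (V M X Y, R2 (-d) d X Y) (V M X Y, Y) := by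
    refine AC.right_inv 1 ?_
    have h' := q_self (V M X Y)
    rw [map_V] at h'
    have h2 : q (V M X Y) X = q (V M X Y) Y ^ M := inv_mul_eq_one.1 h'
    rw [map_R2, h2, R2, map_one]
    group
  have a2 : AC (V M X Y, Y) (X, Y) := by
    refine AC.left_inv 1 ?_
    have h' := q_self Y
    simp [V, h']
  exact a1.trans a2

theorem BS_pow {d : ℤ} {x y : G} (h : R2 (-d) d x y = 1) (p : ℕ) :
    x ^ (-(d * p)) * y * x ^ (d * p) = y ^ (2 ^ p) := by
  have h0 : S (-d) x y = 1 := by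
    rw [← h]; simp only [S, R2, neg_neg]
  have := S_pow h0 p
  rw [neg_mul, neg_neg] at this
  exact this

theorem ac_BS_of (d : ℤ) (p : ℕ) (n : ℤ) (hn : n = d * p ∨ n = -(d * p) ∨
    n + 1 = d * p ∨ n + 1 = -(d * p)) : AC (R1 n X Y, R2 (-d) d X Y) (X, Y) := by
  have h := q_self (R2 (-d) d X Y)
  rw [map_R2] at h
  have hp := BS_pow h p
  set x := q (R2 (-d) d X Y) X with hx
  set y := q (R2 (-d) d X Y) Y with hy
  rcases hn with hn | hn | hn | hn
  · refine AC.trans ?_ (ac_V (1 - 2 ^ p) d)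
    refine AC.left (X ^ n * Y) ?_
    rw [map_R1, map_V, map_mul, map_zpow, ← hx, ← hy]
    rw [← hn] at hp
    have e : R1 n x y = x ^ n * y * (x⁻¹ * (x ^ (-n) * y * x ^ n)⁻¹ * y) * (x ^ n * y)⁻¹ := by
      simp only [R1]; group
    have e2 : y ^ (1 - (2 : ℤ) ^ p) = (y ^ (2 ^ p))⁻¹ * y := by
      rw [← zpow_natCast, ← zpow_neg, ← zpow_add_one]; congr 1; push_cast; ring
    rw [e, hp, V, e2]; group
  · refine AC.trans ?_ (ac_V (2 ^ p - 1) d)
    refine AC.left (Y ^ (2 ^ p)) ?_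
    rw [map_R1, map_V, map_pow, ← hx, ← hy]
    have hn' : d * (p : ℤ) = -n := by omega
    rw [hn', neg_neg] at hp
    have e : R1 n x y = (x ^ n * y * x ^ (-n)) * x⁻¹ * y⁻¹ := by
      simp only [R1]; group
    have e2 : y ^ ((2 : ℤ) ^ p - 1) = y⁻¹ * y ^ (2 ^ p) := by
      rw [← zpow_natCast y, ← zpow_neg_one y, ← zpow_add]; congr 1
    rw [e, hp, V, e2]; group
  · refine AC.trans ?_ (ac_V (1 - 2 ^ p) d)
    refine AC.left (X ^ (n + 1)) ?_
    rw [map_R1, map_V, map_zpow, ← hx, ← hy]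
    rw [← hn] at hp
    have e : R1 n x y = x ^ (n + 1) * (x⁻¹ * y * (x ^ (-(n + 1)) * y * x ^ (n + 1))⁻¹) *
        (x ^ (n + 1))⁻¹ := by
      simp only [R1]; group
    have e2 : y ^ (1 - (2 : ℤ) ^ p) = y * (y ^ (2 ^ p))⁻¹ := by
      rw [← zpow_natCast y, ← zpow_neg, ← zpow_one_add]; congr 1
    rw [e, hp, V, e2]; group
  · refine AC.trans ?_ (ac_V (2 ^ p - 1) d)
    refine AC.left 1 ?_
    rw [map_R1, map_V, map_one, ← hx, ← hy]
    have hn' : d * (p : ℤ) = -(n + 1) := by omega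
    rw [hn', neg_neg] at hp
    have e : R1 n x y = x⁻¹ * (x ^ (n + 1) * y * x ^ (-(n + 1))) * y⁻¹ := by
      simp only [R1]; group
    have e2 : y ^ ((2 : ℤ) ^ p - 1) = y ^ (2 ^ p) * y⁻¹ := by
      rw [← zpow_natCast y, ← zpow_neg_one y, ← zpow_add]; congr 1
    rw [e, hp, V, e2]; group

theorem ac_BS {n d : ℤ} (h : d ∣ n ∨ d ∣ n + 1) : AC (R1 n X Y, R2 (-d) d X Y) (X, Y) := by
  rcases h with ⟨k, hk⟩ | ⟨k, hk⟩
  · obtain ⟨p, rfl | rfl⟩ := Int.eq_nat_or_neg k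
    · exact ac_BS_of d p n (Or.inl hk)
    · exact ac_BS_of d p n (Or.inr (Or.inl (by rw [hk]; ring)))
  · obtain ⟨p, rfl | rfl⟩ := Int.eq_nat_or_neg k
    · exact ac_BS_of d p n (Or.inr (Or.inr (Or.inl hk)))
    · exact ac_BS_of d p n (Or.inr (Or.inr (Or.inr (by rw [hk]; ring))))

end Pool.Agent.ACFam
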