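import Pool.Agent.Lib_helper64.AC.Ident

/-!
# The pairs `(T β, S d)`
-/

namespace Pool.Agent.ACFam

variable {G H : Type*} [Group G] [Group H]

theorem S_key {d : ℤ} {x f : G} (h : S d x f = 1) : x ^ d * f * x ^ (-d) = f ^ 2 := by
  have h' : x ^ d * f * x ^ (-d) * f⁻¹ * f⁻¹ = 1 := h
  rw [mul_inv_eq_one, mul_inv_eq_iff_eq_mul] at h'
  rw [h', pow_two]

theorem S_pow {d : ℤ} {x f : G} (h : S d x f = 1) (p : ℕ) :
    x ^ (d * p) * f * x ^ (-(d * p)) = f ^ (2 ^ p) := by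
  induction p with
  | zero => simp
  | succ p ih =>
    have e : x ^ (d * ((p + 1 : ℕ) : ℤ)) * f * x ^ (-(d * ((p + 1 : ℕ) : ℤ))) =
        x ^ (d * p) * (x ^ d * f * x ^ (-d)) * x ^ (-(d * p)) := by
      push_cast; group
    rw [e, S_key h]
    have e2 : x ^ (d * (p : ℤ)) * f ^ 2 * x ^ (-(d * (p : ℤ))) =
        (x ^ (d * (p : ℤ)) * f * x ^ (-(d * (p : ℤ)))) ^ 2 := by
      rw [zpow_neg, conj_pow]
    rw [e2, ih, ← pow_mul, pow_succ]

/-- `x = f ^ M` as a relator. -/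
def U {G : Type*} [Group G] (M : ℕ) (x f : G) : G := f ^ M * x⁻¹

theorem map_U (φ : G →* H) (M : ℕ) (x y : G) : φ (U M x y) = U M (φ x) (φ y) := by
  simp [U]

theorem U_key {M : ℕ} {x f : G} (h : U M x f = 1) : x = f ^ M := by
  have h' : f ^ M * x⁻¹ = 1 := h
  rw [mul_inv_eq_one] at h'
  exact h'.symm

/-- The pair `(U M, Y)` is trivial. -/
theorem ac_U (M : ℕ) : AC (U M X Y, Y) (X, Y) := by
  refine AC.left_inv 1 ?_
  have hy : q Y Y = 1 := q_self Y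
  simp [U, hy]

/-- The pair `(U M, S d)` is trivial. -/
theorem ac_US (M : ℕ) (d : ℤ) : AC (U M X Y, S d X Y) (X, Y) := by
  refine AC.trans (AC.right_inv (s := U M X Y) (r := S d X Y) (r' := Y) 1 ?_) (ac_U M)
  have h := q_self (U M X Y)
  rw [map_U] at h
  have hx := U_key h
  rw [map_S, hx]
  have hc : Commute ((q (U M X Y) Y ^ M) ^ d) (q (U M X Y) Y) :=
    ((Commute.refl _).pow_left M).zpow_left d
  simp only [S, hc.eq, map_one]
  group

theorem ac_TS_of_dvd (d : ℤ) (p : ℕ) (β : ℤ) (hβ : β = d * p ∨ β = -(d * p) ∨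
    β + 1 = d * p ∨ β + 1 = -(d * p)) : AC (T β X Y, S d X Y) (X, Y) := by
  have h := q_self (S d X Y)
  rw [map_S] at h
  have hp := S_pow h p
  set x := q (S d X Y) X with hx
  set f := q (S d X Y) Y with hf
  refine AC.trans ?_ (ac_US (1 + 2 ^ p) d)
  rcases hβ with hβ | hβ | hβ | hβ
  · refine AC.left 1 ?_
    rw [map_T, map_U, ← hx, ← hf]
    have e : T β x f = f * (x ^ (d * (p : ℤ)) * f * x ^ (-(d * (p : ℤ)))) * x⁻¹ := by
      rw [← hβ]; simp only [T]; group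
    rw [e, hp, U, pow_add, pow_one]; simp
  · refine AC.left (X ^ β) ?_
    rw [map_T, map_U, map_zpow, ← hx, ← hf]
    have hβ' : d * (p : ℤ) = -β := by omega
    rw [hβ', neg_neg] at hp
    have e : T β x f = x ^ β * ((x ^ (-β) * f * x ^ β) * f * x⁻¹) * (x ^ β)⁻¹ := by
      simp only [T]; group
    rw [e, hp, U, ← pow_succ, add_comm 1]
  · refine AC.left ((Y ^ (2 ^ p))⁻¹) ?_
    rw [map_T, map_U, map_inv, map_pow, ← hx, ← hf]
    rw [← hβ] at hp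
    have e : T β x f = f * x⁻¹ * (x ^ (β + 1) * f * x ^ (-(β + 1))) := by
      simp only [T]; group
    rw [e, hp, U, add_comm 1, pow_succ]; group
  · refine AC.left (X ^ (β + 1) * Y⁻¹) ?_
    rw [map_T, map_U, map_mul, map_inv, map_zpow, ← hx, ← hf]
    have hβ' : d * (p : ℤ) = -(β + 1) := by omega
    rw [hβ', neg_neg] at hp
    have e : T β x f = x ^ (β + 1) * ((x ^ (-(β + 1)) * f * x ^ (β + 1)) * x⁻¹ * f) *
        (x ^ (β + 1))⁻¹ := by
      simp only [T]; group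
    rw [e, hp, U, pow_add, pow_one]; group

theorem ac_TS_dvd {d β : ℤ} (h : d ∣ β ∨ d ∣ β + 1) : AC (T β X Y, S d X Y) (X, Y) := by
  rcases h with ⟨k, hk⟩ | ⟨k, hk⟩
  · obtain ⟨p, rfl | rfl⟩ := Int.eq_nat_or_neg k
    · exact ac_TS_of_dvd d p β (Or.inl hk)
    · exact ac_TS_of_dvd d p β (Or.inr (Or.inl (by rw [hk]; ring)))
  · obtain ⟨p, rfl | rfl⟩ := Int.eq_nat_or_neg k
    · exact ac_TS_of_dvd d p β (Or.inr (Or.inr (Or.inl hk)))
    · exact ac_TS_of_dvd d p β (Or.inr (Or.inr (Or.inr (by rw [hk]; ring))))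

section third

/-- `f * x ^ r * f * f = x ^ (r + 1)` -/
def T2 {G : Type*} [Group G] (r : ℤ) (x f : G) : G := f * x ^ r * f * f * x ^ (-(r + 1))

/-- `x ^ (2 * r + 1) = f * f * x ^ r * f * x ^ r * f` -/
def S1 {G : Type*} [Group G] (r : ℤ) (x f : G) : G :=
  x ^ (2 * r + 1) * (f * f * x ^ r * f * x ^ r * f)⁻¹

/-- `x ^ (r + 1) = f ^ 4 * x ^ r * f` -/
def T3 {G : Type*} [Group G] (r : ℤ) (x f : G) : G := x ^ (r + 1) * (f ^ 4 * x ^ r * f)⁻¹

/-- `x ^ r * f ^ 3 * x ^ (-r) = f ^ 2` -/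
def S2 {G : Type*} [Group G] (r : ℤ) (x f : G) : G := x ^ r * f ^ 3 * x ^ (-r) * (f ^ 2)⁻¹

theorem map_T2 (φ : G →* H) (r : ℤ) (x y : G) : φ (T2 r x y) = T2 r (φ x) (φ y) := by
  simp [T2]

theorem map_S1 (φ : G →* H) (r : ℤ) (x y : G) : φ (S1 r x y) = S1 r (φ x) (φ y) := by
  simp [S1]

theorem map_T3 (φ : G →* H) (r : ℤ) (x y : G) : φ (T3 r x y) = T3 r (φ x) (φ y) := by
  simp [T3]

theorem map_S2 (φ : G →* H) (r : ℤ) (x y : G) : φ (S2 r x y) = S2 r (φ x) (φ y) := by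
  simp [S2]

theorem third0 {r : ℤ} {x f : G} (h : S (2 * r + 1) x f = 1) :
    T (3 * r + 1) x f = T2 r x f := by
  have key := S_key h
  have e : T (3 * r + 1) x f =
      f * x ^ r * (x ^ (2 * r + 1) * f * x ^ (-(2 * r + 1))) * x ^ (-(r + 1)) := by
    simp only [T]; group
  rw [e, key, pow_two, T2]; group

theorem third1 {r : ℤ} {x f : G} (h : T2 r x f = 1) : S (2 * r + 1) x f = S1 r x f := by
  have h1 : f * x ^ r * f * f = x ^ (r + 1) := by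
    have : f * x ^ r * f * f * x ^ (-(r + 1)) = 1 := h
    rw [zpow_neg, mul_inv_eq_one] at this
    exact this
  have e : S (2 * r + 1) x f = x ^ (2 * r + 1) * f * (f * f * (x ^ r * x ^ (r + 1)))⁻¹ := by
    simp only [S]; group
  rw [e, ← h1, S1]; group

theorem third2 {r : ℤ} {x f : G} (h : S1 r x f = 1) :
    T2 r x f = (x ^ (-r) * (f ^ 2)⁻¹) * T3 r x f * (x ^ (-r) * (f ^ 2)⁻¹)⁻¹ := by
  have h1 : x ^ (2 * r + 1) = f * f * x ^ r * f * x ^ r * f := by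
    have : x ^ (2 * r + 1) * (f * f * x ^ r * f * x ^ r * f)⁻¹ = 1 := h
    rw [mul_inv_eq_one] at this
    exact this
  have e1 : T2 r x f = f * x ^ r * f * f * (x ^ (2 * r + 1))⁻¹ * x ^ r := by
    simp only [T2]; group
  have e2 : (x ^ (-r) * (f ^ 2)⁻¹) * T3 r x f * (x ^ (-r) * (f ^ 2)⁻¹)⁻¹ =
      x ^ (-r) * (f ^ 2)⁻¹ * x ^ (2 * r + 1) * x ^ (-r) * f⁻¹ * x ^ (-r) * (f ^ 2)⁻¹ * x ^ r := by
    simp only [T3]; group
  rw [e1, e2, h1]; group

theorem third3 {r : ℤ} {x f : G} (h : T3 r x f = 1) : S1 r x f = S2 r x f := by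
  have h1 : x ^ (r + 1) = f ^ 4 * x ^ r * f := by
    have : x ^ (r + 1) * (f ^ 4 * x ^ r * f)⁻¹ = 1 := h
    rw [mul_inv_eq_one] at this
    exact this
  have e : S1 r x f = x ^ r * x ^ (r + 1) * (f * f * x ^ r * f * x ^ r * f)⁻¹ := by
    simp only [S1]; group
  rw [e, h1, S2]; group

theorem third4 {r : ℤ} {x f : G} (h : S2 r x f = 1) :
    T3 r x f = (x ^ r) * (U 7 x f)⁻¹ * (x ^ r)⁻¹ := by
  have h1 : x ^ r * f ^ 3 * x ^ (-r) = f ^ 2 := by
    have : x ^ r * f ^ 3 * x ^ (-r) * (f ^ 2)⁻¹ = 1 := h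
    rw [mul_inv_eq_one] at this
    exact this
  have h2 : x ^ (-r) * (f ^ 4)⁻¹ * x ^ r = (f ^ 6)⁻¹ := by
    have : f ^ 4 = (x ^ r * f ^ 3 * x ^ (-r)) * (x ^ r * f ^ 3 * x ^ (-r)) := by
      rw [h1]; group
    rw [this]; group
  have e : T3 r x f = x ^ r * (x * f⁻¹ * (x ^ (-r) * (f ^ 4)⁻¹ * x ^ r)) * (x ^ r)⁻¹ := by
    simp only [T3]; group
  rw [e, h2, U]; group

theorem third5 {r : ℤ} {x f : G} (h : U 7 x f = 1) : S2 r x f = f := by
  have hx := U_key h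
  have hc : Commute (x ^ r) f := by
    rw [hx]; exact ((Commute.refl _).pow_left 7).zpow_left r
  have hc3 : Commute (x ^ r) (f ^ 3) := hc.pow_right 3
  rw [S2, hc3.eq]; group

theorem ac_TS_third (r : ℤ) : AC (T (3 * r + 1) X Y, S (2 * r + 1) X Y) (X, Y) := by
  have s0 : AC (T (3 * r + 1) X Y, S (2 * r + 1) X Y) (T2 r X Y, S (2 * r + 1) X Y) := by
    refine AC.left 1 ?_
    have h := q_self (S (2 * r + 1) X Y)
    rw [map_S] at h
    rw [map_T, map_T2, third0 h]; simp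
  have s1 : AC (T2 r X Y, S (2 * r + 1) X Y) (T2 r X Y, S1 r X Y) := by
    refine AC.right 1 ?_
    have h := q_self (T2 r X Y)
    rw [map_T2] at h
    rw [map_S, map_S1, third1 h]; simp
  have s2 : AC (T2 r X Y, S1 r X Y) (T3 r X Y, S1 r X Y) := by
    refine AC.left (X ^ (-r) * (Y ^ 2)⁻¹) ?_
    have h := q_self (S1 r X Y)
    rw [map_S1] at h
    rw [map_T2, map_T3, third2 h]; simp only [map_mul, map_zpow, map_inv, map_pow]
  have s3 : AC (T3 r X Y, S1 r X Y) (T3 r X Y, S2 r X Y) := by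
    refine AC.right 1 ?_
    have h := q_self (T3 r X Y)
    rw [map_T3] at h
    rw [map_S1, map_S2, third3 h]; simp
  have s4 : AC (T3 r X Y, S2 r X Y) (U 7 X Y, S2 r X Y) := by
    refine AC.left_inv (X ^ r) ?_
    have h := q_self (S2 r X Y)
    rw [map_S2] at h
    rw [map_T3, map_U, third4 h]; simp only [map_zpow]
  have s5 : AC (U 7 X Y, S2 r X Y) (U 7 X Y, Y) := by
    refine AC.right 1 ?_
    have h := q_self (U 7 X Y)
    rw [map_U] at h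
    rw [map_S2, third5 h]; simp
  exact ((((((s0.trans s1).trans s2).trans s3).trans s4).trans s5).trans (ac_U 7))

end third

/-- `(T β, S d)` and `(T β, S (-d))` are trivial at the same time. -/
theorem ac_TS_neg {β d : ℤ} (h : AC (T β X Y, S d X Y) (X, Y)) :
    AC (T β X Y, S (-d) X Y) (X, Y) := by
  have h1 := AC.subInv h
  rw [map_T, map_S, sub_X, sub_Y] at h1
  have e1 : T β X Y = X ^ (β + 1) * (T β X⁻¹ Y⁻¹)⁻¹ * (X ^ (β + 1))⁻¹ := by
    simp only [T, inv_zpow']; group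
  have e2 : S (-d) X Y = Y ^ (2 : ℤ) * (S d X⁻¹ Y⁻¹)⁻¹ * (Y ^ (2 : ℤ))⁻¹ := by
    simp only [S, inv_zpow']; group
  have a1 : AC (T β X Y, S (-d) X Y) (T β X⁻¹ Y⁻¹, S (-d) X Y) :=
    AC.left_inv (X ^ (β + 1)) (by rw [e1]; simp only [map_mul, map_inv])
  have a2 : AC (T β X⁻¹ Y⁻¹, S (-d) X Y) (T β X⁻¹ Y⁻¹, S d X⁻¹ Y⁻¹) :=
    AC.right_inv (Y ^ (2 : ℤ)) (by rw [e2]; simp only [map_mul, map_inv])
  exact (a1.trans a2).trans h1

end Pool.Agent.ACFam
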