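import Pool.Agent.Lib_helper64.AC.Elem

/-!
# One-block Miller–Schupp presentations
-/

namespace Pool.Agent.ACFam

/-- The Miller–Schupp pair of relators `y⁻¹ x ^ n y x ^ (-(n + 1))`, `y⁻¹ w`, that is the
presentation `⟨x, y | y⁻¹ x ^ n y = x ^ (n + 1), y = w⟩`. -/
def MS (n : ℤ) (w : F2) : F2 × F2 := (Y⁻¹ * X ^ n * Y * (X ^ (n + 1))⁻¹, Y⁻¹ * w)

/-- The word `w` is of the form `x ^ e y⁻¹ x ^ b y x ^ c` or `x ^ b y x ^ c y⁻¹ x ^ e`. -/
def OneBlock (b c : ℤ) (w : F2) : Prop :=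
  ∃ e : ℤ, w = X ^ e * Y⁻¹ * X ^ b * Y * X ^ c ∨ w = X ^ b * Y * X ^ c * Y⁻¹ * X ^ e

/-- Andrews–Curtis triviality of a pair of relators in `x` and `y`. -/
def Trivializable (p : F2 × F2) : Prop := AC p (X, Y)

theorem MS_of_P {n b c : ℤ} {w : F2} (hw : OneBlock b c w)
    (h : AC (R1 n X Y, R2 b c X Y) (X, Y)) : Trivializable (MS n w) := by
  obtain ⟨e, rfl | rfl⟩ := hw
  · have h1 := AC.subY2 0 (-e) h
    rw [map_R1, map_R2, sub_X, sub_Y] at h1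
    refine AC.trans ?_ h1
    set y' : F2 := X ^ (0 : ℤ) * Y * X ^ (-e) with hy'
    have e1 : Y⁻¹ * X ^ n * Y * (X ^ (n + 1))⁻¹ = Y⁻¹ * R1 n X y' * Y⁻¹⁻¹ := by
      simp only [R1, hy']; group
    have e2 : Y⁻¹ * (X ^ e * Y⁻¹ * X ^ b * Y * X ^ c) =
        (y' * y' * X ^ e)⁻¹ * R2 b c X y' * (y' * y' * X ^ e)⁻¹⁻¹ := by
      simp only [R2, hy']; group
    rw [MS, e1, e2]
    exact ((AC.swap _ _).trans ((AC.conj _ _ _).symm.trans (AC.swap _ _))).trans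
      (AC.conj _ _ _).symm
  · have h1 := AC.subY2 (-e) 0 h
    rw [map_R1, map_R2, sub_X, sub_Y] at h1
    refine AC.trans ?_ h1
    set y' : F2 := X ^ (-e) * Y * X ^ (0 : ℤ) with hy'
    have e1 : Y⁻¹ * X ^ n * Y * (X ^ (n + 1))⁻¹ =
        (Y⁻¹ * X ^ e) * R1 n X y' * (Y⁻¹ * X ^ e)⁻¹ := by
      simp only [R1, hy']; group
    have e2 : Y⁻¹ * (X ^ b * Y * X ^ c * Y⁻¹ * X ^ e) = y'⁻¹ * R2 b c X y' * y'⁻¹⁻¹ := by
      simp only [R2, hy']; group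
    rw [MS, e1, e2]
    exact ((AC.swap _ _).trans ((AC.conj _ _ _).symm.trans (AC.swap _ _))).trans
      (AC.conj _ _ _).symm

/-- The arithmetic condition. -/
theorem ms_trivial {n k b c β d : ℤ} (hd : Cond β d) (hk : 2 * β + 1 ∣ k - d)
    (hn : (n = 2 * β ∧ β ∣ k) ∨ (n = 2 * β + 1 ∧ β + 1 ∣ k))
    (hb : n ∣ b + k) (hc : n + 1 ∣ c - k) : AC (R1 n X Y, R2 b c X Y) (X, Y) := by
  rcases hn with ⟨rfl, j, hj⟩ | ⟨rfl, j, hj⟩
  · rcases Int.even_or_odd' j with ⟨i, hi | hi⟩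
    · have h2 : 2 * β ∣ k := ⟨i, by rw [hj, hi]; ring⟩
      exact shift_bc (b' := 0) (c' := c) (by simpa using (Int.dvd_add_left h2).1 hb)
        (by simp) (ac_b_zero _ _)
    · refine main _ _ _ (Or.inl ⟨β, d, rfl, ?_, ?_, hd⟩)
      · have e : b - β = (b + k) + 2 * β * (-(i + 1)) := by rw [hj, hi]; ring
        rw [e]; exact dvd_add hb (dvd_mul_right _ _)
      · have e : c - d = (c - k) + (k - d) := by ring
        rw [e]; exact dvd_add hc hk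
  · rcases Int.even_or_odd' j with ⟨i, hi | hi⟩
    · have h2 : 2 * β + 1 + 1 ∣ k := ⟨i, by rw [hj, hi]; ring⟩
      refine shift_bc (b' := b) (c' := 0) (by simp) ?_ (ac_c_zero _ _)
      have e : c - 0 = (c - k) + k := by ring
      rw [e]; exact dvd_add hc h2
    · refine main _ _ _ (Or.inr ⟨β, -d, rfl, ?_, ?_, hd.neg⟩)
      · have e : c - (β + 1) = (c - k) + (2 * β + 1 + 1) * i := by rw [hj, hi]; ring
        rw [e]; exact dvd_add hc (dvd_mul_right _ _)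
      · have e : b - -d = (b + k) - (k - d) := by ring
        rw [e]; exact dvd_sub hb hk

end Pool.Agent.ACFam
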