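import Pool.Agent.Lib_helper64.AC.Basic

/-!
# Group identities behind the Andrews–Curtis reductions
-/

namespace Pool.Agent.ACFam

variable {G H : Type*} [Group G] [Group H]

/-- `x ^ n * y = y * x ^ (n + 1)` as a relator. -/
def R1 {G : Type*} [Group G] (n : ℤ) (x y : G) : G := x ^ n * y * x ^ (-(n + 1)) * y⁻¹

/-- `x ^ b * y * x ^ c = y * y` as a relator. -/
def R2 {G : Type*} [Group G] (b c : ℤ) (x y : G) : G := x ^ b * y * x ^ c * y⁻¹ * y⁻¹

/-- `f * x ^ β * f = x ^ (β + 1)` as a relator. -/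
def T {G : Type*} [Group G] (β : ℤ) (x f : G) : G := f * x ^ β * f * x ^ (-(β + 1))

/-- `x ^ d * f * x ^ (-d) = f * f` as a relator. -/
def S {G : Type*} [Group G] (d : ℤ) (x f : G) : G := x ^ d * f * x ^ (-d) * f⁻¹ * f⁻¹

theorem map_R1 (φ : G →* H) (n : ℤ) (x y : G) : φ (R1 n x y) = R1 n (φ x) (φ y) := by
  simp [R1]

theorem map_R2 (φ : G →* H) (b c : ℤ) (x y : G) : φ (R2 b c x y) = R2 b c (φ x) (φ y) := by
  simp [R2]

theorem map_T (φ : G →* H) (b : ℤ) (x y : G) : φ (T b x y) = T b (φ x) (φ y) := by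
  simp [T]

theorem map_S (φ : G →* H) (b : ℤ) (x y : G) : φ (S b x y) = S b (φ x) (φ y) := by
  simp [S]

section even

theorem R2_key {b c : ℤ} {x y : G} (h : R2 b c x y = 1) : y * x ^ (-c) = y⁻¹ * x ^ b * y := by
  have h1 : x ^ b * y * x ^ c = y * y := by
    have : x ^ b * y * x ^ c * y⁻¹ * y⁻¹ = 1 := h
    rw [mul_inv_eq_one, mul_inv_eq_iff_eq_mul] at this
    exact this
  calc y * x ^ (-c) = y⁻¹ * (y * y) * x ^ (-c) := by group
    _ = y⁻¹ * (x ^ b * y * x ^ c) * x ^ (-c) := by rw [h1]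
    _ = y⁻¹ * x ^ b * y := by group

/-- Even case, first step. -/
theorem even1 {β c : ℤ} {x y : G} (h : R2 β c x y = 1) :
    R1 (2 * β) x y = y * T β x (y * x ^ (-(β + c))) * y⁻¹ := by
  have key := R2_key h
  have e : T β x (y * x ^ (-(β + c))) =
      (y * x ^ (-c)) * (y * x ^ (-c)) * x ^ (-(2 * β + 1)) := by
    simp only [T]; group
  rw [e, key, R1]; group

theorem T_key {β : ℤ} {x f : G} (h : T β x f = 1) : x ^ β * f = f⁻¹ * x ^ (β + 1) := by
  have h1 : f * x ^ β * f = x ^ (β + 1) := by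
    have : f * x ^ β * f * x ^ (-(β + 1)) = 1 := h
    rw [zpow_neg, mul_inv_eq_one] at this
    exact this
  rw [← h1]; group

theorem T_key' {β : ℤ} {x f : G} (h : T β x f = 1) : f * x ^ β * f = x ^ (β + 1) := by
  have : f * x ^ β * f * x ^ (-(β + 1)) = 1 := h
  rw [zpow_neg, mul_inv_eq_one] at this
  exact this

/-- Even case, second step. -/
theorem even2 {β c : ℤ} {x f : G} (h : T β x f = 1) :
    R2 β c x (f * x ^ (β + c)) = f⁻¹ * S c x f * f⁻¹⁻¹ := by
  have key := T_key h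
  calc R2 β c x (f * x ^ (β + c))
      = (x ^ β * f) * x ^ c * (f * x ^ c * (x ^ β * f))⁻¹ := by simp only [R2]; group
    _ = (f⁻¹ * x ^ (β + 1)) * x ^ c * (f * x ^ c * (f⁻¹ * x ^ (β + 1)))⁻¹ := by rw [key]
    _ = f⁻¹ * S c x f * f⁻¹⁻¹ := by simp only [S]; group

end even

section odd

/-- Odd case, first step. -/
theorem odd1 {β b : ℤ} {x y : G} (h : R2 b (β + 1) x y = 1) :
    R1 (2 * β + 1) x y = 1 * (T β x (x ^ (-b) * y * x ^ (-β)))⁻¹ * 1⁻¹ := by
  have key := R2_key h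
  have key' : y * x ^ (β + 1) * y⁻¹ = x ^ (-b) * y := by
    have e : y * x ^ (β + 1) = x ^ (-b) * y * y := by
      calc y * x ^ (β + 1) = x ^ (-b) * y * (y⁻¹ * x ^ b * y) * x ^ (β + 1) := by group
        _ = x ^ (-b) * y * (y * x ^ (-(β + 1))) * x ^ (β + 1) := by rw [← key]
        _ = x ^ (-b) * y * y := by group
    rw [e]; group
  have e1 : R1 (2 * β + 1) x y =
      x ^ (2 * β + 1) * ((y * x ^ (β + 1) * y⁻¹) * (y * x ^ (β + 1) * y⁻¹))⁻¹ := by
    simp only [R1]; group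
  rw [e1, key']; simp only [T]; group

/-- Odd case, second step. -/
theorem odd2 {β b : ℤ} {x f : G} (h : T β x f = 1) :
    R2 b (β + 1) x (x ^ b * f * x ^ β) =
      x ^ (2 * b) * (S (-b) x f)⁻¹ * (x ^ (2 * b))⁻¹ := by
  have key := T_key' h
  have e : f * x ^ (β + 1) * f⁻¹ = f ^ (2 : ℤ) * x ^ β := by
    rw [← key, zpow_two]; group
  calc R2 b (β + 1) x (x ^ b * f * x ^ β)
      = x ^ (2 * b) * (f * x ^ (β + 1) * f⁻¹) * x ^ (-b) * x ^ (-β) * f⁻¹ * x ^ (-b) := by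
        simp only [R2]; group
    _ = x ^ (2 * b) * (f ^ (2 : ℤ) * x ^ β) * x ^ (-b) * x ^ (-β) * f⁻¹ * x ^ (-b) := by rw [e]
    _ = x ^ (2 * b) * (S (-b) x f)⁻¹ * (x ^ (2 * b))⁻¹ := by simp only [S]; group

end odd

section periodic

/-- Modulo `T β`, the power `x ^ (2 * β + 1)` commutes with `f`. -/
theorem T_comm {β : ℤ} {x f : G} (h : T β x f = 1) : Commute (x ^ (2 * β + 1)) f := by
  have key := T_key' h
  have e : x ^ (2 * β + 1) = (f * x ^ β) * (f * x ^ β) := by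
    calc x ^ (2 * β + 1) = x ^ (β + 1) * x ^ β := by group
      _ = f * x ^ β * f * x ^ β := by rw [key]
      _ = _ := by group
  have h1 : Commute (x ^ (2 * β + 1)) (f * x ^ β) := by
    rw [e]; exact (Commute.refl _).mul_left (Commute.refl _)
  have h2 : Commute (x ^ (2 * β + 1)) (x ^ β) := (Commute.refl x).zpow_zpow _ _
  have h3 : Commute (x ^ (2 * β + 1)) (f * x ^ β * (x ^ β)⁻¹) := h1.mul_right h2.inv_right
  rwa [mul_inv_cancel_right] at h3

theorem S_periodic {β : ℤ} {x f : G} (h : T β x f = 1) (c k : ℤ) :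
    S (c + (2 * β + 1) * k) x f = S c x f := by
  have hc : Commute (x ^ ((2 * β + 1) * k)) f := by
    rw [zpow_mul]; exact (T_comm h).zpow_left k
  have e : x ^ ((2 * β + 1) * k) * f * x ^ (-((2 * β + 1) * k)) = f := by
    rw [hc.eq]; group
  calc S (c + (2 * β + 1) * k) x f
      = x ^ c * (x ^ ((2 * β + 1) * k) * f * x ^ (-((2 * β + 1) * k))) * x ^ (-c) * f⁻¹ * f⁻¹ := by
        simp only [S]; group
    _ = S c x f := by rw [e, S]

end periodic

section shift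

/-- Modulo `R1 n` the exponents of `R2` may be moved. -/
theorem R2_shift {n : ℤ} {x y : G} (h : R1 n x y = 1) (b c k : ℤ) :
    R2 (b + n * k) c x y = R2 b (c + (n + 1) * k) x y := by
  have h1 : x ^ n = y * x ^ (n + 1) * y⁻¹ := by
    have : x ^ n * y * x ^ (-(n + 1)) * y⁻¹ = 1 := h
    rw [mul_inv_eq_one, zpow_neg, mul_inv_eq_iff_eq_mul] at this
    rw [← this]; group
  have h2 : x ^ (n * k) = y * x ^ ((n + 1) * k) * y⁻¹ := by
    rw [zpow_mul, h1, conj_zpow, zpow_mul]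
  calc R2 (b + n * k) c x y = x ^ b * x ^ (n * k) * y * x ^ c * y⁻¹ * y⁻¹ := by
        simp only [R2]; group
    _ = x ^ b * (y * x ^ ((n + 1) * k) * y⁻¹) * y * x ^ c * y⁻¹ * y⁻¹ := by rw [h2]
    _ = _ := by simp only [R2]; group

end shift

end Pool.Agent.ACFam
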