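import Pool.Agent.Lib_helper64.AC.Families

/-!
# Miller–Schupp presentations with `n ∣ 2 * b` or `n + 1 ∣ 2 * c`
-/

namespace Pool.Agent.ACFam

/-- The condition on the residue `d` modulo `2 * β + 1`. -/
def Cond (β d : ℤ) : Prop :=
  d ∣ β ∨ d ∣ β + 1 ∨ 3 * d = 2 * β + 1 ∨ 3 * d = -(2 * β + 1)

theorem Cond.neg {β d : ℤ} (h : Cond β d) : Cond β (-d) := by
  rcases h with h | h | h | h
  · exact Or.inl ((neg_dvd).2 h)
  · exact Or.inr (Or.inl ((neg_dvd).2 h))
  · exact Or.inr (Or.inr (Or.inr (by omega)))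
  · exact Or.inr (Or.inr (Or.inl (by omega)))

theorem ac_TS {β d : ℤ} (h : Cond β d) : AC (T β X Y, S d X Y) (X, Y) := by
  rcases h with h | h | h | h
  · exact ac_TS_dvd (Or.inl h)
  · exact ac_TS_dvd (Or.inr h)
  · obtain ⟨r, hr, hr'⟩ : ∃ r : ℤ, d = 2 * r + 1 ∧ β = 3 * r + 1 :=
      ⟨(d - 1) / 2, by omega, by omega⟩
    rw [hr, hr']; exact ac_TS_third r
  · obtain ⟨r, hr, hr'⟩ : ∃ r : ℤ, d = -(2 * r + 1) ∧ β = 3 * r + 1 :=
      ⟨(-d - 1) / 2, by omega, by omega⟩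
    rw [hr, hr']; exact ac_TS_neg (ac_TS_third r)

/-- periodicity in the exponent of `S` -/
theorem ac_TS' {β d c : ℤ} (h : Cond β d) (hc : 2 * β + 1 ∣ c - d) :
    AC (T β X Y, S c X Y) (X, Y) := by
  obtain ⟨k, hk⟩ := hc
  have e : c = d + (2 * β + 1) * k := by omega
  refine AC.trans (AC.right (s := T β X Y) (r := S c X Y) (r' := S d X Y) 1 ?_) (ac_TS h)
  have h' := q_self (T β X Y)
  rw [map_T] at h'
  rw [map_S, map_S, e, S_periodic h']; simp

theorem even_main {β c d : ℤ} (h : Cond β d) (hc : 2 * β + 1 ∣ c - d) :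
    AC (R1 (2 * β) X Y, R2 β c X Y) (X, Y) := by
  have h1 := AC.subY (-(β + c)) (ac_TS' h hc)
  rw [map_T, map_S, sub_X, sub_Y] at h1
  refine AC.trans ?_ h1
  set f : F2 := Y * X ^ (-(β + c)) with hf
  have hY : Y = f * X ^ (β + c) := by rw [hf]; group
  have a1 : AC (R1 (2 * β) X Y, R2 β c X Y) (T β X f, R2 β c X Y) := by
    refine AC.left Y ?_
    have h' := q_self (R2 β c X Y)
    rw [map_R2] at h'
    rw [map_R1, map_T, even1 h', hf]; simp only [map_mul, map_zpow]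
  have a2 : AC (T β X f, R2 β c X Y) (T β X f, S c X f) := by
    refine AC.right f⁻¹ ?_
    have h' := q_self (T β X f)
    rw [map_T] at h'
    have e : R2 β c X Y = R2 β c X (f * X ^ (β + c)) := by rw [← hY]
    rw [e, map_R2, map_S, map_mul, map_zpow, even2 h', map_inv]
  exact a1.trans a2

/-- Triviality is preserved by the substitution `Y ↦ X ^ j * Y * X ^ k`. -/
theorem AC.subY2 {r s : F2} (j k : ℤ) (h : AC (r, s) (X, Y)) :
    AC (sub X (X ^ j * Y * X ^ k) r, sub X (X ^ j * Y * X ^ k) s) (X, Y) := by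
  have h1 := AC.map (sub X (X ^ j * Y * X ^ k)) h
  simp only [sub_X, sub_Y] at h1
  refine h1.trans ?_
  refine AC.right 1 ?_
  have hx : q X X = 1 := q_self X
  simp [map_mul, map_zpow, hx]

theorem odd_main {β b d : ℤ} (h : Cond β d) (hb : 2 * β + 1 ∣ b - d) :
    AC (R1 (2 * β + 1) X Y, R2 b (β + 1) X Y) (X, Y) := by
  have hb' : 2 * β + 1 ∣ -b - -d := by
    have : -b - -d = -(b - d) := by ring
    rw [this]; exact (dvd_neg).2 hb
  have h1 := AC.subY2 (-b) (-β) (ac_TS' h.neg hb')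
  rw [map_T, map_S, sub_X, sub_Y] at h1
  refine AC.trans ?_ h1
  set f : F2 := X ^ (-b) * Y * X ^ (-β) with hf
  have hY : Y = X ^ b * f * X ^ β := by rw [hf]; group
  have a1 : AC (R1 (2 * β + 1) X Y, R2 b (β + 1) X Y) (T β X f, R2 b (β + 1) X Y) := by
    refine AC.left_inv 1 ?_
    have h' := q_self (R2 b (β + 1) X Y)
    rw [map_R2] at h'
    rw [map_R1, map_T, odd1 h', hf]; simp only [map_mul, map_zpow, map_one]
  have a2 : AC (T β X f, R2 b (β + 1) X Y) (T β X f, S (-b) X f) := by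
    refine AC.right_inv (X ^ (2 * b)) ?_
    have h' := q_self (T β X f)
    rw [map_T] at h'
    have e : R2 b (β + 1) X Y = R2 b (β + 1) X (X ^ b * f * X ^ β) := by rw [← hY]
    rw [e, map_R2, map_S, map_mul, map_mul, map_zpow, map_zpow, odd2 h', map_zpow]
  exact a1.trans a2

/-- Main theorem. -/
theorem main (n b c : ℤ)
    (h : (∃ β d : ℤ, n = 2 * β ∧ n ∣ b - β ∧ n + 1 ∣ c - d ∧ Cond β d) ∨
      (∃ β d : ℤ, n = 2 * β + 1 ∧ n + 1 ∣ c - (β + 1) ∧ n ∣ b - d ∧ Cond β d)) :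
    AC (R1 n X Y, R2 b c X Y) (X, Y) := by
  rcases h with ⟨β, d, rfl, ⟨k, hk⟩, hc, hd⟩ | ⟨β, d, rfl, ⟨k, hk⟩, hb, hd⟩
  · have e : b = β + 2 * β * k := by omega
    have hc' : 2 * β + 1 ∣ (c + (2 * β + 1) * k) - d := by
      have : (c + (2 * β + 1) * k) - d = (c - d) + (2 * β + 1) * k := by ring
      rw [this]; exact dvd_add hc (dvd_mul_right _ _)
    refine AC.trans ?_ (even_main hd hc')
    refine AC.right 1 ?_
    have h' := q_self (R1 (2 * β) X Y)
    rw [map_R1] at h'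
    rw [map_R2, map_R2, e, R2_shift h']; simp
  · have e : c = (β + 1) + (2 * β + 1 + 1) * k := by
      have : 2 * β + 1 + 1 = 2 * β + 2 := by ring
      omega
    have hb' : 2 * β + 1 ∣ (b + (2 * β + 1) * k) - d := by
      have : (b + (2 * β + 1) * k) - d = (b - d) + (2 * β + 1) * k := by ring
      rw [this]; exact dvd_add hb (dvd_mul_right _ _)
    refine AC.trans ?_ (odd_main hd hb')
    refine AC.right 1 ?_
    have h' := q_self (R1 (2 * β + 1) X Y)
    rw [map_R1] at h'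
    rw [map_R2, map_R2, e, ← R2_shift h']; simp

end Pool.Agent.ACFam
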